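import Pool.Agent.H66.SYM.Basic

set_option autoImplicit false

namespace Pool.H66.SYM

theorem s_GRP : S_GRP := by
  intro m G γ δ k i₀ i₁ hγ hγt hδ hδk hδt h01 hswap
  have key : ∀ a b : Fin m, a ≠ b → ∃ g ∈ G, g i₀ = a ∧ g i₁ = b := by
    intro a b hab
    obtain ⟨n, hn⟩ := hγt i₀ k
    obtain ⟨l, hl⟩ := hγt k a
    have h1 : (γ ^ n) i₁ ≠ k := by
      intro h
      rw [← hn] at h
      exact h01 ((γ ^ n).injective h).symm
    have h2 : (γ ^ l)⁻¹ b ≠ k := by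
      intro h
      apply hab
      rw [← hl, ← h]; simp
    obtain ⟨p, hp⟩ := hδt ((γ ^ n) i₁) ((γ ^ l)⁻¹ b) h1 h2
    have hk : ∀ q : ℕ, (δ ^ q) k = k := by
      intro q
      induction q with
      | zero => simp
      | succ q ih => rw [pow_succ, Equiv.Perm.mul_apply, hδk, ih]
    refine ⟨γ ^ l * δ ^ p * γ ^ n, ?_, ?_, ?_⟩
    · exact G.mul_mem (G.mul_mem (G.pow_mem hγ l) (G.pow_mem hδ p)) (G.pow_mem hγ n)
    · rw [Equiv.Perm.mul_apply, Equiv.Perm.mul_apply, hn, hk, hl]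
    · rw [Equiv.Perm.mul_apply, Equiv.Perm.mul_apply, hp]; simp
  have hall : ∀ σ : Equiv.Perm (Fin m), σ.IsSwap → σ ∈ G := by
    rintro σ ⟨a, b, hab, rfl⟩
    obtain ⟨g, hg, h1, h2⟩ := key a b hab
    have : Equiv.swap a b = g * Equiv.swap i₀ i₁ * g⁻¹ := by
      rw [← h1, ← h2]
      exact Equiv.swap_apply_apply g i₀ i₁
    rw [this]
    exact G.mul_mem (G.mul_mem hg hswap) (G.inv_mem hg)
  rw [eq_top_iff, ← Equiv.Perm.closure_isSwap, Subgroup.closure_le]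
  exact fun σ hσ => hall σ hσ

end Pool.H66.SYM
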