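import Pool.Agent.H66.SYM.Basic

set_option autoImplicit false

namespace Pool.H66.SYM

theorem VNU_sum_mul (hB : S_BAS) (A : Aut) (χ : A.Cusp) (hχ : A.deg χ = 1)
    (Q : Multiset A.Cusp) (p : A.Pt) :
    (A.eigs (Q.map (A.mul χ)) p).sum = A.tr χ p * (A.eigs Q p).sum := by
  induction Q using Multiset.induction_on with
  | empty => simp [AData.eigs]
  | cons z Q ih =>
    rw [Multiset.map_cons, eigs_cons, Multiset.sum_add, ih, eigs_cons, Multiset.sum_add,
      (hB A).2.2.2.2.2.1 χ z p hχ, Multiset.sum_map_mul_left, mul_add, Multiset.map_id']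

theorem s_VNU (hZ : S_ZRO) (hC : S_COL) (hB : S_BAS) : S_VNU := by
  intro A r τ hdeg hS nu hnu
  have hle : ∀ i, nu (Fin.last r) ≤ nu i := fun i => hnu (Fin.le_last i)
  set n := nu (Fin.last r) with hn
  let lam : Fin r → ℕ := fun i => nu i.castSucc - n
  have hlam : Antitone lam := by
    intro i j hij
    exact Nat.sub_le_sub_right (hnu (Fin.castSucc_le_castSucc_iff.2 hij)) n
  obtain ⟨Q0, hQ0⟩ := hS lam hlam {τ}
  have hbase : ∀ p, (A.eigs Q0 p).sum =
      schur (Fin.snoc (α := fun _ => ℕ) lam 0 : Fin (r + 1) → ℕ) (A.eig τ p) := by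
    intro p
    rw [hZ, hQ0 p, eigs_singleton]
  have hall : ∀ k : ℕ, ∃ Q : Multiset A.Cusp, ∀ p, (A.eigs Q p).sum =
      schur (fun j => (Fin.snoc (α := fun _ => ℕ) lam 0 : Fin (r + 1) → ℕ) j + k)
        (A.eig τ p) := by
    intro k
    induction k with
    | zero => exact ⟨Q0, hbase⟩
    | succ k ih =>
      obtain ⟨Q, hQ⟩ := ih
      refine ⟨Q.map (A.mul (A.det τ)), fun p => ?_⟩
      obtain ⟨c, hc⟩ := exists_ord A.toAData (m := r + 1) (τ := τ) (p := p)
        (by rw [(hB A).1 τ p, hdeg])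
      rw [VNU_sum_mul hB A (A.det τ) (A.deg_det τ) Q p, hQ p]
      have htr : A.tr (A.det τ) p = ∏ j, c j := by
        unfold AData.tr
        rw [(hB A).2.2.2.2.2.2.1 τ p, Multiset.sum_singleton, hc]
        rfl
      rw [htr, hc, ← hC (r + 1) c]
      rfl
  obtain ⟨Q, hQ⟩ := hall n
  refine ⟨Q, fun p => ?_⟩
  rw [hQ p]
  congr 1
  funext j
  refine Fin.lastCases ?_ (fun i => ?_) j
  · simp [hn]
  · simp only [Fin.snoc_castSucc, lam]
    exact Nat.sub_add_cancel (hle _)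

end Pool.H66.SYM
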